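import Pool.Agent.Run7.h662.FK.STEP

/-!
Assembly of project FK.
-/

set_option autoImplicit false

namespace Pool.Agent.Run7.h350.FK

open Pool.Agent.Run7.h662.FK (S_STEP')

open MeasureTheory Set Topology
open scoped ENNReal NNReal

/-- the weighted function `h(z) / (1 + |z|²)^s · e^(-α|z|²/2)` -/
noncomputable def wt {n : ℕ} (α : ℝ) (s : ℕ) (h : CE n → ℂ) (z : CE n) : ℂ :=
  h z / ((1 + ‖z‖ ^ 2) ^ s : ℝ) * (Real.exp (-(α * ‖z‖ ^ 2 / 2)) : ℝ)

section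

variable {n : ℕ}

lemma Ent.cont {h : CE n → ℂ} (hh : Ent h) : Continuous h := by
  have h1 : ContinuousOn h univ := hh.continuousOn
  exact continuousOn_univ.mp h1

lemma one_add_pos (z : CE n) : 0 < 1 + ‖z‖ ^ 2 := by positivity

lemma wt_cont {α : ℝ} {s : ℕ} {h : CE n → ℂ} (hh : Continuous h) : Continuous (wt α s h) := by
  unfold wt
  refine Continuous.mul (Continuous.div hh ?_ ?_) ?_
  · exact Complex.continuous_ofReal.comp (by fun_prop)
  · intro z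
    have h1 := one_add_pos z
    have : ((1 + ‖z‖ ^ 2) ^ s : ℝ) ≠ 0 := by positivity
    exact_mod_cast this
  · exact Complex.continuous_ofReal.comp (by fun_prop)

lemma wt_norm {α : ℝ} {s : ℕ} {h : CE n → ℂ} (z : CE n) :
    ‖wt α s h z‖ = ‖h z‖ / (1 + ‖z‖ ^ 2) ^ s * Real.exp (-(α * ‖z‖ ^ 2 / 2)) := by
  unfold wt
  have h1 := one_add_pos z
  have h2 : 0 < (1 + ‖z‖ ^ 2) ^ s := by positivity
  rw [norm_mul, norm_div, Complex.norm_real, Complex.norm_real, Real.norm_of_nonneg h2.le,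
    Real.norm_of_nonneg (Real.exp_pos _).le]

lemma wt_enorm {α q : ℝ} (hq : 0 < q) {s : ℕ} {h : CE n → ℂ} (z : CE n) :
    ‖wt α s h z‖ₑ ^ q = ENNReal.ofReal ((1 + ‖z‖ ^ 2) ^ (-((s : ℝ) * q)) *
      Real.exp (-(α * q / 2) * ‖z‖ ^ 2)) * ‖h z‖ₑ ^ q := by
  have h1 := one_add_pos z
  have h2 : 0 < (1 + ‖z‖ ^ 2) ^ s := by positivity
  rw [← ofReal_norm, ← ofReal_norm, wt_norm,
    ENNReal.ofReal_rpow_of_nonneg (by positivity) hq.le,
    ENNReal.ofReal_rpow_of_nonneg (norm_nonneg _) hq.le, ← ENNReal.ofReal_mul (by positivity)]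
  congr 1
  rw [Real.mul_rpow (by positivity) (Real.exp_pos _).le,
    Real.div_rpow (norm_nonneg _) h2.le, ← Real.exp_mul]
  have h3 : ((1 + ‖z‖ ^ 2) ^ s) ^ q = (1 + ‖z‖ ^ 2) ^ ((s : ℝ) * q) := by
    rw [← Real.rpow_natCast, ← Real.rpow_mul h1.le]
  rw [h3, Real.rpow_neg h1.le]
  have h4 : -(α * ‖z‖ ^ 2 / 2) * q = -(α * q / 2) * ‖z‖ ^ 2 := by ring
  rw [h4]
  have h5 : (0 : ℝ) < (1 + ‖z‖ ^ 2) ^ ((s : ℝ) * q) := Real.rpow_pos_of_pos h1 _
  field_simp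

lemma memLp_top_iff {g : CE n → ℂ} (hg : Continuous g) :
    MemLp g ∞ volume ↔ ∃ C : ℝ, ∀ z, ‖g z‖ ≤ C := by
  constructor
  · intro h
    have h1 := h.2
    rw [eLpNorm_exponent_top] at h1
    set C : ℝ := (eLpNormEssSup g volume).toReal with hC
    refine ⟨C, ?_⟩
    have h2 : ∀ᵐ z ∂(volume : Measure (CE n)), ‖g z‖ ≤ C := by
      filter_upwards [enorm_ae_le_eLpNormEssSup g (volume : Measure (CE n))] with z hz
      have h3 := ENNReal.toReal_mono h1.ne hz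
      simpa using h3
    intro z
    by_contra hcon
    push Not at hcon
    have hopen : IsOpen {z : CE n | C < ‖g z‖} := isOpen_lt continuous_const hg.norm
    have hpos : 0 < volume {z : CE n | C < ‖g z‖} :=
      hopen.measure_pos volume ⟨z, hcon⟩
    have hzero : volume {z : CE n | C < ‖g z‖} = 0 := by
      rw [ae_iff] at h2
      simpa using h2
    exact hpos.ne' hzero
  · rintro ⟨C, hC⟩
    exact memLp_top_of_bound hg.aestronglyMeasurable C (Filter.Eventually.of_forall hC)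

lemma memLp_iff_lint {α q : ℝ} {p : ℝ≥0∞} (hp0 : p ≠ 0) (hpt : p ≠ ∞) (hq : q = p.toReal)
    (hq0 : 0 < q) {s : ℕ} {h : CE n → ℂ} (hh : Continuous h) :
    MemLp (wt α s h) p volume ↔
      ∫⁻ z : CE n, ENNReal.ofReal ((1 + ‖z‖ ^ 2) ^ (-((s : ℝ) * q)) *
        Real.exp (-(α * q / 2) * ‖z‖ ^ 2)) * ‖h z‖ₑ ^ q ≠ ∞ := by
  have h1 : MemLp (wt α s h) p volume ↔ eLpNorm (wt α s h) p volume < ∞ :=
    ⟨fun h => h.2, fun h => ⟨(wt_cont hh).aestronglyMeasurable, h⟩⟩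
  rw [h1, eLpNorm_lt_top_iff_lintegral_rpow_enorm_lt_top hp0 hpt, ← hq, lt_top_iff_ne_top]
  simp only [wt_enorm hq0]

lemma a_fin {q : ℝ} (hq0 : 0 < q) {h : CE n → ℂ} (hh : Continuous h) (K : ℕ) :
    ∫⁻ z in shell n K, ‖h z‖ₑ ^ q ≠ ∞ := by
  obtain ⟨C, hC⟩ := (isCompact_closedBall (0 : CE n) (Real.sqrt (K + 1))).exists_bound_of_continuousOn
    hh.continuousOn
  have hsub : shell n K ⊆ Metric.closedBall (0 : CE n) (Real.sqrt (K + 1)) := by
    intro z hz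
    rw [mem_closedBall_zero_iff]
    exact Real.le_sqrt_of_sq_le hz.2.le
  have h1 : ∫⁻ z in shell n K, ‖h z‖ₑ ^ q ≤
      ∫⁻ z in Metric.closedBall (0 : CE n) (Real.sqrt (K + 1)), (ENNReal.ofReal C) ^ q := by
    refine (lintegral_mono_set hsub).trans ?_
    refine setLIntegral_mono measurable_const (fun z hz => ?_)
    refine ENNReal.rpow_le_rpow ?_ hq0.le
    rw [← ofReal_norm]
    exact ENNReal.ofReal_le_ofReal (hC z hz)
  refine ne_top_of_le_ne_top ?_ h1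
  rw [setLIntegral_const]
  exact ENNReal.mul_ne_top (ENNReal.rpow_ne_top_of_nonneg hq0.le ENNReal.ofReal_ne_top)
    (isCompact_closedBall _ _).measure_lt_top.ne

theorem step_iff (hANA : S_ANA) (hMVQ : S_MVQ) (hFUB : S_FUB) (hDIL : S_DIL) (hSTEP : S_STEP')
    (hSUM : S_SUM) (hCOV : S_COV) (hINF : S_INF) (hCONV : S_CONV) (hCONVINF : S_CONVINF)
    (hn : 1 ≤ n) {p : ℝ≥0∞} (hp : 0 < p) {α : ℝ} (hα : 0 < α) (s : ℕ) {h : CE n → ℂ}
    (hh : Ent h) :
    MemLp (wt α s h) p volume ↔ MemLp (wt α (s + 1) (rad h)) p volume := by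
  have hr : Ent (rad h) := (hANA n h hh).1
  have hhc := hh.cont
  have hrc := hr.cont
  by_cases hpt : p = ∞
  · subst hpt
    rw [memLp_top_iff (wt_cont hhc), memLp_top_iff (wt_cont hrc)]
    have key : ∀ (t : ℕ) (g : CE n → ℂ) (C : ℝ), (∀ z, ‖wt α t g z‖ ≤ C) ↔
        ∀ z, ‖g z‖ ≤ C * (1 + ‖z‖ ^ 2) ^ t * Real.exp (α / 2 * ‖z‖ ^ 2) := by
      intro t g C
      refine forall_congr' (fun z => ?_)
      have h1 := one_add_pos z
      have h2 : 0 < (1 + ‖z‖ ^ 2) ^ t := by positivity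
      have h3 : Real.exp (α / 2 * ‖z‖ ^ 2) = (Real.exp (-(α * ‖z‖ ^ 2 / 2)))⁻¹ := by
        rw [← Real.exp_neg]; congr 1; ring
      have h4 : 0 < Real.exp (-(α * ‖z‖ ^ 2 / 2)) := Real.exp_pos _
      rw [wt_norm, h3, ← div_eq_mul_inv, le_div_iff₀ h4, div_mul_eq_mul_div, div_le_iff₀ h2]
    constructor
    · rintro ⟨C, hC⟩
      obtain ⟨M, hM⟩ := hCONVINF n s α C hα h hh ((key s h C).mp hC)
      exact ⟨M, (key (s + 1) (rad h) M).mpr hM⟩
    · rintro ⟨M, hM⟩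
      obtain ⟨C, hC⟩ := hINF n s α M hα h hh ((key (s + 1) (rad h) M).mp hM)
      exact ⟨C, (key s h C).mpr hC⟩
  · set q : ℝ := p.toReal with hq
    have hq0 : 0 < q := ENNReal.toReal_pos hp.ne' hpt
    have hβ : 0 < α * q / 2 := by positivity
    have hσ : 0 ≤ (s : ℝ) * q := by positivity
    rw [memLp_iff_lint hp.ne' hpt hq hq0 hhc, memLp_iff_lint hp.ne' hpt hq hq0 hrc]
    have hexp : -(((s + 1 : ℕ) : ℝ) * q) = -((s : ℝ) * q) - q := by push_cast; ring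
    rw [hexp]
    constructor
    · intro h1
      exact hCONV n hn q (α * q / 2) ((s : ℝ) * q) hq0 hβ hσ h hh h1
    · intro h1
      have hGr : Measurable (fun z : CE n => ‖rad h z‖ₑ ^ q) :=
        (hrc.enorm.measurable).pow_const q
      have hGh : Measurable (fun z : CE n => ‖h z‖ₑ ^ q) :=
        (hhc.enorm.measurable).pow_const q
      have h2 := (hCOV n q (α * q / 2) ((s : ℝ) * q) hq0 hβ hσ _ hGr).2 h1
      have h3 := hSUM n q (α * q / 2) ((s : ℝ) * q) hq0 hβ hσ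
        (fun K => ∫⁻ z in shell n K, ‖h z‖ₑ ^ q) (fun K => ∫⁻ z in thick n K, ‖rad h z‖ₑ ^ q)
        (fun K => a_fin hq0 hhc K)
        (fun ε hε => by
          obtain ⟨C, hC⟩ := hSTEP n hn q hq0 ε hε
          exact ⟨C, fun K hK => hC h hh K hK⟩) h2
      exact (hCOV n q (α * q / 2) ((s : ℝ) * q) hq0 hβ hσ _ hGh).1 h3

theorem final (hANA : S_ANA) (hMVQ : S_MVQ) (hFUB : S_FUB) (hDIL : S_DIL) (hSTEP : S_STEP')
    (hSUM : S_SUM) (hCOV : S_COV) (hINF : S_INF) (hCONV : S_CONV) (hCONVINF : S_CONVINF)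
    (hn : 1 ≤ n) {p : ℝ≥0∞} (hp : 0 < p) {α : ℝ} (hα : 0 < α) (N : ℕ) {f : CE n → ℂ}
    (hf : Ent f) :
    MemLp (wt α 0 f) p volume ↔ MemLp (wt α N (rad^[N] f)) p volume := by
  have hent : ∀ k : ℕ, Ent (rad^[k] f) := by
    intro k
    induction k with
    | zero => exact hf
    | succ k ih =>
      rw [Function.iterate_succ_apply']
      exact (hANA n _ ih).1
  induction N with
  | zero => exact Iff.rfl
  | succ k ih =>
    rw [Function.iterate_succ_apply']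
    exact ih.trans
      (step_iff hANA hMVQ hFUB hDIL hSTEP hSUM hCOV hINF hCONV hCONVINF hn hp hα k (hent k))

end

end Pool.Agent.Run7.h350.FK
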