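import Mathlib

/-!
# Project FK (helper350): MP_bbe01f_an, radial derivatives and Fock spaces

Theorem: for all `0 < p ≤ ∞`, `α > 0`, `N ≥ 1` and every entire `f` on `ℂⁿ`: if
`R^N f / (1 + |z|²)^N ∈ L^p_α` then `f ∈ F^p_α`.

Proof. It suffices to pass from `R h / (1 + |z|²)^(s+1)` to `h / (1 + |z|²)^s`. Shells
`K ≤ |z|² < K + 1`, dilation by `ρ = √((K-1)/K)`, which maps the shell `K` into the shell `K - 1`: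
`h(z) = h(ρ z) + ∫_ρ^1 R h(τ z) dτ / τ`; the last term is at most `(2 / K) sup_τ |R h(τ z)|`, and
`|R h(τ z)|^q` is at most `C K^n` times the integral of `|R h|^q` over the ball `B(z, 3/√K)`. So
`a_K = ∫_{shell K} |h|^q` satisfies
`a_K ≤ (1 + ε) (K/(K-1))^n a_{K-1} + C K^(-q) ∫_{K-6 ≤ |y|² ≤ K+19} |R h|^q`, and the Gaussian weight
makes the factor smaller than 1.

Every `S_XXX : Prop` is one piece: file `Pool/Agent/Run7/<you>/FK/XXX.lean`, importing this file,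
`theorem t_XXX : (hypotheses as said) → S_XXX`.
-/

set_option autoImplicit false

namespace Pool.Agent.Run7.h350.FK

open MeasureTheory Set Topology
open scoped ENNReal NNReal

/-- `ℂⁿ` with the Euclidean norm and Lebesgue measure -/
abbrev CE (n : ℕ) := EuclideanSpace ℂ (Fin n)

/-- entire functions on `ℂⁿ` -/
def Ent {n : ℕ} (f : CE n → ℂ) : Prop := AnalyticOnNhd ℂ f univ

/-- the radial derivative `R f = Σ z_k ∂f/∂z_k` -/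
noncomputable def rad {n : ℕ} (f : CE n → ℂ) (z : CE n) : ℂ :=
  ∑ k, z k * fderiv ℂ f z (EuclideanSpace.single k 1)

/-- the shell `K ≤ |z|² < K + 1` -/
def shell (n K : ℕ) : Set (CE n) := {z | (K : ℝ) ≤ ‖z‖ ^ 2 ∧ ‖z‖ ^ 2 < K + 1}

/-- the thick shell `K - 6 ≤ |z|² ≤ K + 19` -/
def thick (n K : ℕ) : Set (CE n) := {z | (K : ℝ) - 6 ≤ ‖z‖ ^ 2 ∧ ‖z‖ ^ 2 ≤ K + 19}

/-! ## Pieces -/

/-- **ANA** (80 lines). `rad f z = fderiv ℂ f z z` (linearity, `z = Σ z_k e_k`); `z ↦ fderiv ℂ f z z` is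
analytic (`AnalyticOnNhd.fderiv`, evaluation is bilinear; or a finite sum of products).
`τ ↦ f (τ z)` has the derivative `fderiv ℂ f (τ z) z = rad f (τ z) / τ`, of norm `≤ M / ρ` on
`[ρ, 1]`: mean value inequality. -/
def S_ANA : Prop :=
  ∀ (n : ℕ) (f : CE n → ℂ), Ent f →
    Ent (rad f) ∧ (∀ z, rad f z = fderiv ℂ f z z) ∧
    ∀ (z : CE n) (ρ M : ℝ), 0 < ρ → ρ ≤ 1 →
      (∀ τ ∈ Icc ρ 1, ‖rad f (τ • z)‖ ≤ M) → ‖f z - f (ρ • z)‖ ≤ (1 - ρ) / ρ * M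

/-- **MV** (sub-mean value property; 120 lines). For fixed `y`, `λ ↦ g (a + λ y)` is entire on `ℂ`, so
`g a` is the average of `g (a + e^{iθ} y)` over `θ ∈ [0, 2π]` (Cauchy / circle average). So
`‖g a‖ₑ ≤ (2π)⁻¹ ∫⁻_θ ‖g (a + e^{iθ} y)‖ₑ`; integrate over `y ∈ ball 0 r` (Tonelli); multiplication by
`e^{iθ}` is a linear isometry and preserves the measure and the ball. -/
def S_MV : Prop :=
  ∀ (n : ℕ) (g : CE n → ℂ), Ent g → ∀ (a : CE n) (r : ℝ), 0 < r →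
    ‖g a‖ₑ * volume (Metric.ball a r) ≤ ∫⁻ z in Metric.ball a r, ‖g z‖ₑ

/-- **MVQ** (the same for `|g|^q`; 150 lines; hypothesis `S_MV`). `q ≥ 1`: Hölder / Jensen, `C = 1`.
`q < 1` (we may assume `I = ∫_{ball a r} |g|^q < ∞`, automatically true; `D = 2 n` = real dimension,
`n ≥ 1`): let `m = max (r - |z - a|)^(D/q) |g z|` over the closed ball, attained at `z₀` (if `m = 0` then
`g a = 0`), `t = (r - |z₀ - a|) / 2 > 0`. On `ball z₀ t` we have `r - |z - a| ≥ t`, so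
`|g z| ≤ m t^(-D/q)` and `|g z| ≤ |g z|^q (m t^(-D/q))^(1-q)`. By `S_MV`,
`|g z₀| c t^D ≤ (m t^(-D/q))^(1-q) I`, where `volume (ball 0 t) = c t^D`; and `m = (2t)^(D/q) |g z₀|`.
So `m^q c ≤ 2^(D/q) I`, and `r^D |g a|^q ≤ m^q`. -/
def S_MVQ : Prop :=
  ∀ (n : ℕ), 1 ≤ n → ∀ q : ℝ, 0 < q → ∃ C : ℝ≥0, ∀ g : CE n → ℂ, Ent g →
    ∀ (a : CE n) (r : ℝ), 0 < r →
      ‖g a‖ₑ ^ q * volume (Metric.ball a r) ≤ C * ∫⁻ z in Metric.ball a r, ‖g z‖ₑ ^ q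

/-- **FUB** (50 lines). Tonelli for `(z, y) ↦ 1_S(z) 1_{|y - z| < r} G(y)`; for fixed `y` the set of `z`
is contained in `ball y r`, and it is empty for `y ∉ T`. -/
def S_FUB : Prop :=
  ∀ (n : ℕ) (G : CE n → ℝ≥0∞), Measurable G → ∀ (S T : Set (CE n)) (r : ℝ),
    MeasurableSet S → MeasurableSet T → (∀ z ∈ S, Metric.ball z r ⊆ T) →
    ∫⁻ z in S, ∫⁻ y in Metric.ball z r, G y ≤
      volume (Metric.ball (0 : CE n) r) * ∫⁻ y in T, G y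

/-- **DIL** (dilation; 60 lines). `ρ² = (K - 1) / K`; the map `z ↦ ρ z` multiplies the measure by
`ρ^(2n)` (`Measure.map_addHaar_smul` or `integral_comp_smul` for `lintegral`) and maps the shell `K`
into the shell `K - 1`, because `(K + 1) (K - 1) / K < K`. -/
def S_DIL : Prop :=
  ∀ (n : ℕ) (G : CE n → ℝ≥0∞), Measurable G → ∀ K : ℕ, 2 ≤ K →
    ∫⁻ z in shell n K, G (Real.sqrt (((K : ℝ) - 1) / K) • z) ≤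
      ENNReal.ofReal (((K : ℝ) / (K - 1)) ^ n) * ∫⁻ z in shell n (K - 1), G z

/-- **STEP** (the recursion; 150 lines; hypotheses `S_ANA`, `S_MVQ`, `S_FUB`, `S_DIL`). For
`z ∈ shell n K`, `ρ = √((K-1)/K) ≥ 1/√2`, `τ ∈ [ρ, 1]`: `|z - τ z| ≤ (1/K) √(K+1) ≤ 2/√K`, so
`ball (τ z) (1/√K) ⊆ ball z (3/√K)` and (`S_MVQ`)
`‖R h (τ z)‖ₑ^q ≤ C vol(ball 0 (1/√K))⁻¹ ∫⁻_{ball z (3/√K)} ‖R h‖ₑ^q`. By `S_ANA`
`‖h z‖ ≤ ‖h (ρ z)‖ + (2/K) sup_τ ‖R h (τ z)‖`. For `x, y ≥ 0`: `(x + y)^q ≤ (1 + ε) x^q + C_ε y^q`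
(`q ≤ 1`: subadditivity; `q > 1`: convexity, `(x + y)^q ≤ (1 - t)^(1-q) x^q + t^(1-q) y^q`). Integrate
over the shell with `S_DIL` and `S_FUB` (`T = thick n K`, since
`(√K - 3/√K)² ≥ K - 6` and `(√(K+1) + 3/√K)² ≤ K + 19`), and
`vol (ball 0 (3/√K)) = 9^n vol (ball 0 (1/√K))`. -/
def S_STEP : Prop :=
  ∀ (n : ℕ), 1 ≤ n → ∀ q : ℝ, 0 < q → ∀ ε : ℝ, 0 < ε → ∃ C : ℝ≥0, ∀ h : CE n → ℂ, Ent h →
    ∀ K : ℕ, 2 ≤ K →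
      ∫⁻ z in shell n K, ‖h z‖ₑ ^ q ≤
        ENNReal.ofReal ((1 + ε) * ((K : ℝ) / (K - 1)) ^ n) * ∫⁻ z in shell n (K - 1), ‖h z‖ₑ ^ q +
        C * ENNReal.ofReal ((K : ℝ) ^ (-q)) * ∫⁻ z in thick n K, ‖rad h z‖ₑ ^ q

/-- **SUM** (the weighted sum; 120 lines, pure `ENNReal` analysis). Let `W K` be the weight. For
`K ≥ 2`, `W K ≤ e^(-β) W (K - 1)`. Choose `ε` and `K₀` with
`(1 + ε) (K/(K-1))^n e^(-β) ≤ θ < 1` for `K ≥ K₀`. Then `A K = W K a K` satisfies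
`A K ≤ θ A (K - 1) + C W K K^(-q) b K`; sum over `K₀ ≤ K ≤ M` (finite sums, all finite):
`(1 - θ) Σ_{K ≤ M} A K ≤ Σ_{K < K₀} A K + C Σ W K K^(-q) b K`; let `M → ∞`. -/
def S_SUM : Prop :=
  ∀ (n : ℕ) (q β σ : ℝ), 0 < q → 0 < β → 0 ≤ σ → ∀ a b : ℕ → ℝ≥0∞, (∀ K, a K ≠ ∞) →
    (∀ ε : ℝ, 0 < ε → ∃ C : ℝ≥0, ∀ K : ℕ, 2 ≤ K →
      a K ≤ ENNReal.ofReal ((1 + ε) * ((K : ℝ) / (K - 1)) ^ n) * a (K - 1) +
        C * ENNReal.ofReal ((K : ℝ) ^ (-q)) * b K) →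
    ∑' K : ℕ, ENNReal.ofReal ((1 + (K : ℝ)) ^ (-σ) * Real.exp (-β * K) * (1 + (K : ℝ)) ^ (-q)) * b K
      ≠ ∞ →
    ∑' K : ℕ, ENNReal.ofReal ((1 + (K : ℝ)) ^ (-σ) * Real.exp (-β * K)) * a K ≠ ∞

/-- **COV** (covering by shells; 100 lines). First part: the space is the disjoint union of the
shells, and on the shell `K` the weight is at most `(1+K)^(-σ) e^(-βK)`. Second part: on `thick n K` the
weight `(1+|y|²)^(-σ-q) e^(-β|y|²)` is at least `(K+20)^(-σ-q) e^(-β(K+19))`, which is at least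
`c (1+K)^(-σ-q) e^(-βK)`; exchange sum and integral (`lintegral_tsum` with indicators): every `y` lies in
at most 26 of the sets `thick n K`. -/
def S_COV : Prop :=
  ∀ (n : ℕ) (q β σ : ℝ), 0 < q → 0 < β → 0 ≤ σ → ∀ G : CE n → ℝ≥0∞, Measurable G →
    ((∑' K : ℕ, ENNReal.ofReal ((1 + (K : ℝ)) ^ (-σ) * Real.exp (-β * K)) *
        ∫⁻ z in shell n K, G z ≠ ∞) →
      ∫⁻ z, ENNReal.ofReal ((1 + ‖z‖ ^ 2) ^ (-σ) * Real.exp (-β * ‖z‖ ^ 2)) * G z ≠ ∞) ∧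
    ((∫⁻ z, ENNReal.ofReal ((1 + ‖z‖ ^ 2) ^ (-σ - q) * Real.exp (-β * ‖z‖ ^ 2)) * G z ≠ ∞) →
      ∑' K : ℕ, ENNReal.ofReal ((1 + (K : ℝ)) ^ (-σ) * Real.exp (-β * K) * (1 + (K : ℝ)) ^ (-q)) *
        ∫⁻ z in thick n K, G z ≠ ∞)

/-- **INF** (the case `p = ∞`; 80 lines; hypothesis `S_ANA`). On the ray of a unit vector `ζ`,
`G(ρ) = h (ρ ζ)`, `‖G'(ρ)‖ = ‖rad h (ρ ζ)‖ / ρ ≤ M (1 + ρ²)^(s+1) e^(αρ²/2) / ρ` for `ρ ≥ 1`. With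
`B(ρ) = C (1 + ρ²)^s e^(αρ²/2)` we have `B' ≥ C α ρ (1 + ρ²)^s e^(αρ²/2) ≥ ‖G'‖` if `C α ≥ 2 M`
(because `1 + ρ² ≤ 2 ρ²`), and `‖G(1)‖ ≤ C` if `C` is large
(`image_norm_le_of_norm_deriv_right_le_deriv_boundary` or monotonicity). On the unit ball `h` is
bounded. -/
def S_INF : Prop :=
  ∀ (n s : ℕ) (α M : ℝ), 0 < α → ∀ h : CE n → ℂ, Ent h →
    (∀ z, ‖rad h z‖ ≤ M * (1 + ‖z‖ ^ 2) ^ (s + 1) * Real.exp (α / 2 * ‖z‖ ^ 2)) →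
    ∃ C : ℝ, ∀ z, ‖h z‖ ≤ C * (1 + ‖z‖ ^ 2) ^ s * Real.exp (α / 2 * ‖z‖ ^ 2)

/-- **CONV** (the converse direction; 120 lines; hypotheses `S_ANA`, `S_MVQ`, `S_FUB`). One step: if
`h / (1 + |z|²)^s ∈ L^q_α` then `rad h / (1 + |z|²)^(s+1) ∈ L^q_α`. With `r = 1 / (1 + ‖z‖)`:
`‖rad h z‖ = ‖fderiv h z z‖ ≤ ‖z‖ r⁻¹ sup_{ball z r} ‖h‖ ≤ 2 (1 + ‖z‖²) sup_{ball z r} ‖h‖` (Cauchy's estimate
in the direction `z`), and `sup_{ball z r} ‖h‖ₑ^q vol (ball 0 r) ≤ C ∫⁻_{ball z (2r)} ‖h‖ₑ^q`; the weight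
`(1+|y|²)^(-sq) e^(-αq|y|²/2)` changes on `ball z (2r)` at most by a constant factor, and `r` too; Tonelli. -/
def S_CONV : Prop :=
  ∀ (n : ℕ), 1 ≤ n → ∀ (q β σ : ℝ), 0 < q → 0 < β → 0 ≤ σ → ∀ h : CE n → ℂ, Ent h →
    ∫⁻ z, ENNReal.ofReal ((1 + ‖z‖ ^ 2) ^ (-σ) * Real.exp (-β * ‖z‖ ^ 2)) * ‖h z‖ₑ ^ q ≠ ∞ →
    ∫⁻ z, ENNReal.ofReal ((1 + ‖z‖ ^ 2) ^ (-σ - q) * Real.exp (-β * ‖z‖ ^ 2)) * ‖rad h z‖ₑ ^ q ≠ ∞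

/-- **CONVINF** (the converse direction for `p = ∞`; 60 lines; hypothesis `S_ANA`): Cauchy's estimate as
in CONV. -/
def S_CONVINF : Prop :=
  ∀ (n s : ℕ) (α C : ℝ), 0 < α → ∀ h : CE n → ℂ, Ent h →
    (∀ z, ‖h z‖ ≤ C * (1 + ‖z‖ ^ 2) ^ s * Real.exp (α / 2 * ‖z‖ ^ 2)) →
    ∃ M : ℝ, ∀ z, ‖rad h z‖ ≤ M * (1 + ‖z‖ ^ 2) ^ (s + 1) * Real.exp (α / 2 * ‖z‖ ^ 2)

end Pool.Agent.Run7.h350.FK
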